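import Mathlib

set_option autoImplicit false

open MeasureTheory ProbabilityTheory
open scoped ENNReal NNReal

/-!
# The frog model with death: definitions

The vertex set `V` carries its discrete sigma-algebra (`DiscreteMeasurableSpace V`).
-/

namespace Pool.Agent.H979.FR

variable {V : Type}

/-! ### Graph notions -/

/-- The ball `B(o, n)` of the graph distance. -/
def ball (G : SimpleGraph V) (o : V) (n : ℕ) : Set V := {v | G.dist o v ≤ n}

/-- The outer vertex boundary of a finite set. -/
def outerBd (G : SimpleGraph V) (F : Finset V) : Set V := {y | y ∉ F ∧ ∃ x ∈ F, G.Adj x y}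

/-- `G` is vertex-transitive. -/
def Transitive (G : SimpleGraph V) : Prop := ∀ x y : V, ∃ φ : G ≃g G, φ x = y

/-- `G` is amenable: there are finite nonempty sets `F` with `|∂F| / |F|` arbitrarily small. -/
def Amenable (G : SimpleGraph V) : Prop :=
  ∀ ε : ℝ, 0 < ε → ∃ F : Finset V, F.Nonempty ∧ ((outerBd G F).ncard : ℝ) ≤ ε * F.card

/-- `G` has polynomial growth: `|B(o, n)| ≤ C n ^ d` for some `C, d` and all `n ≥ 1`. -/
def PolynomialGrowth (G : SimpleGraph V) (o : V) : Prop :=
  ∃ (C : ℝ) (d : ℕ), ∀ n : ℕ, 1 ≤ n → ((ball G o n).ncard : ℝ) ≤ C * (n : ℝ) ^ d

/-- `G` has at most linear growth: `|B(o, n)| ≤ C n` for some `C` and all `n ≥ 1`. -/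
def LinearGrowth (G : SimpleGraph V) (o : V) : Prop :=
  ∃ C : ℝ, ∀ n : ℕ, 1 ≤ n → ((ball G o n).ncard : ℝ) ≤ C * n

/-! ### One particle -/

/-- The randomness used by one particle: its holding times (the times between its jumps), and for
all `n` and `v` the vertex `ξ.2 (n, v)` to which the particle jumps at its jump number `n + 1` if it
is at `v` just before this jump. -/
abbrev Part (V : Type) : Type := (ℕ → ℝ) × (ℕ × V → V)

/-- The vertex at which a particle started at `x` is after `n` jumps. -/
def path (x : V) (c : ℕ × V → V) : ℕ → V
  | 0 => x
  | n + 1 => c (n, path x c n)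

/-- The set of vertices that a particle started (that is, activated) at `x` with lifetime `t`
visits: it has made at least `n` jumps during its life iff its first `n` holding times have sum at
most `t`. -/
def visits (t : ℝ) (x : V) (ξ : Part V) : Set V :=
  {y | ∃ n : ℕ, ∑ i ∈ Finset.range n, ξ.1 i ≤ t ∧ path x ξ.2 n = y}

/-! ### All particles -/

/-- The randomness of the model: at each vertex `x` the number `(ω x).1` of particles and the
randomness `(ω x).2 i` of the particles `i = 0, 1, 2, ...` (only `i < (ω x).1` are used). -/
abbrev Conf (V : Type) : Type := V → ℕ × (ℕ → Part V)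

/-- The vertices that are ever visited in the frog model with lifetime `t` started from the
particles at `o`: `o` itself, and every vertex that is visited during the life of a particle which
sleeps at a vertex that is ever visited. -/
inductive Visited (t : ℝ) (ω : Conf V) (o : V) : V → Prop
  | start : Visited t ω o o
  | step {x y : V} (i : ℕ) : Visited t ω o x → i < (ω x).1 → y ∈ visits t x ((ω x).2 i) →
      Visited t ω o y

/-- Survival: infinitely many vertices are visited. -/
def Survives (t : ℝ) (o : V) : Set (Conf V) := {ω | {y | Visited t ω o y}.Infinite}

section Laws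

variable [MeasurableSpace V] [DiscreteMeasurableSpace V] (G : SimpleGraph V) [G.LocallyFinite]

open Classical in
/-- The uniform distribution on the neighbours of `v` (the point mass at `v` if there are none). -/
noncomputable def stepLaw (v : V) : Measure V :=
  if (G.neighborSet v).Nonempty then uniformOn (G.neighborSet v) else Measure.dirac v

instance (v : V) : IsProbabilityMeasure (stepLaw G v) := by
  unfold stepLaw
  split_ifs with h
  · exact isProbabilityMeasure_uniformOn (Set.toFinite _) h
  · infer_instance

/-- The law of the choices of the particles: independent, uniform on the neighbours. -/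
noncomputable def choiceLaw : Measure (ℕ × V → V) :=
  Measure.infinitePi fun p : ℕ × V => stepLaw G p.2

instance : IsProbabilityMeasure (choiceLaw G) := by unfold choiceLaw; infer_instance

/-- The law of the holding times: independent, exponential with mean one. -/
noncomputable def clockLaw : Measure (ℕ → ℝ) := Measure.infinitePi fun _ : ℕ => expMeasure 1

instance instExpOne : IsProbabilityMeasure (expMeasure 1) := isProbabilityMeasure_expMeasure one_pos

instance : IsProbabilityMeasure clockLaw := by unfold clockLaw; infer_instance

/-- The law of the randomness of one particle: with this law, a particle performs a continuous-time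
simple random walk of rate one. -/
noncomputable def partLaw : Measure (Part V) := clockLaw.prod (choiceLaw G)

instance : IsProbabilityMeasure (partLaw G) := by unfold partLaw; infer_instance

/-- The law `P_λ` of all the randomness: independent `Poisson (λ)` numbers of particles, all
particles independent. (The lifetime `t` only enters in `visits`.) -/
noncomputable def law (lam : ℝ≥0) : Measure (Conf V) :=
  Measure.infinitePi fun _ : V =>
    (poissonMeasure lam).prod (Measure.infinitePi fun _ : ℕ => partLaw G)

instance (lam : ℝ≥0) : IsProbabilityMeasure (law G lam) := by unfold law; infer_instance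

/-- The critical lifetime `t_c(λ) = sup {t ≥ 0 : P_{λ,t}(o → ∞) = 0}`, in `[0, ∞]`. -/
noncomputable def tc (o : V) (lam : ℝ≥0) : ℝ≥0∞ :=
  ⨆ (t : ℝ≥0) (_ : law G lam (Survives (t : ℝ) o) = 0), (t : ℝ≥0∞)

end Laws

end Pool.Agent.H979.FR
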