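import Pool.Agent.H979.FR.Asm
import Pool.Agent.H155.FRREG
import Pool.Agent.H195.FRISO
import Pool.Agent.H215.FRCELL
import Pool.Agent.H229.FRCLOSE
import Pool.Agent.H236.FRPOI
import Pool.Agent.H25.FRENG
import Pool.Agent.H264.FRKAP
import Pool.Agent.H339.FRBD2
import Pool.Agent.H339.FRMON
import Pool.Agent.H349.FREXP
import Pool.Agent.H353.FRREACH
import Pool.Agent.H396.FRPAR
import Pool.Agent.H658.FRIND
import Pool.Agent.H671.FRGEO
import Pool.Agent.H726.FRMEAS
import Pool.Agent.H738.FRTOUR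
import Pool.Agent.H740.FRINS
import Pool.Agent.H747.FRGROW
import Pool.Agent.H767.FROUT
import Pool.Agent.H772.FRSYM
import Pool.Agent.H807.FRHIT
import Pool.Agent.H828.FRSM
import Pool.Agent.H909.FRMTP
import Pool.Agent.H921.FRBALL
import Pool.Agent.H967.FRDEC
import Pool.Agent.H997.FRCL

set_option autoImplicit false

open MeasureTheory ProbabilityTheory
open scoped ENNReal NNReal

namespace Pool.Agent.H979.FR

theorem pBALL : S_BALL := Pool.Agent.H921.fr_ball
theorem pCNT : S_CNT := Pool.Agent.H921.fr_cnt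
theorem pREG : S_REG := Pool.Agent.H155.fr_reg
theorem pMTP : S_MTP := Pool.Agent.H909.fr_mtp pBALL
theorem pGEO : S_GEO := Pool.Agent.H671.fr_geo pMTP pBALL
theorem pGROW : S_GROW := Pool.Agent.H747.fr_grow pBALL
theorem pISO : S_ISO := Pool.Agent.H195.fr_iso pGEO pGROW
theorem pCELL : S_CELL := Pool.Agent.H215.fr_cell pBALL
theorem pTOUR : S_TOUR := Pool.Agent.H738.fr_tour
theorem pSYM : S_SYM := Pool.Agent.H772.fr_sym
theorem pDEC : S_DEC := Pool.Agent.H967.fr_dec pSYM pREG pBALL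
theorem pMON : S_MON := Pool.Agent.H339.fr_mon pSYM
theorem pBD2 : S_BD2 := Pool.Agent.H339.fr_bd2 pSYM
theorem pKAP : S_KAP := Pool.Agent.H264.fr_kap pMON pBD2
theorem pKDEC : S_KDEC := Pool.Agent.H264.fr_kdec pDEC
theorem pEXP : S_EXP := Pool.Agent.H349.fr_exp
theorem pEXPP : S_EXPP := Pool.Agent.H349.fr_expp
theorem pSM : S_SM := Pool.Agent.H828.fr_sm pSYM
theorem pHIT : S_HIT := Pool.Agent.H807.fr_hit pSM pEXP
theorem pMEAS : S_MEAS := Pool.Agent.H726.fr_meas
theorem pPOI : S_POI := Pool.Agent.H236.fr_poi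
theorem pCLOSE : S_CLOSE := Pool.Agent.H229.fr_close pHIT pPOI pMEAS
theorem pIND : S_IND := Pool.Agent.H658.fr_ind pMEAS
theorem pREACH : S_REACH := Pool.Agent.H353.fr_reach
theorem pINS : S_INS := Pool.Agent.H740.fr_ins pEXPP
theorem pOUT : S_OUT := Pool.Agent.H767.fr_out pSYM
theorem pCL : S_CL := Pool.Agent.H997.fr_cl
theorem pENG : S_ENG := Pool.Agent.H25.fr_eng pCL
theorem pPAR : S_PAR := Pool.Agent.H396.fr_par

/-- `t_c(λ) < ∞` on infinite transitive amenable graphs of superlinear growth. -/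
theorem tc_lt_top (V : Type) [Infinite V] [MeasurableSpace V] [DiscreteMeasurableSpace V]
    (G : SimpleGraph V) [G.LocallyFinite] (hG : G.Connected) (hT : Transitive G) (hA : Amenable G)
    (o : V) (hL : ¬ LinearGrowth G o) (lam : ℝ≥0) (hlam : 0 < lam) : tc G o lam < ⊤ :=
  main pCNT pREG pISO pCELL pTOUR pKAP pKDEC pCLOSE pIND pREACH pINS pOUT pENG pPAR V G hG hT hA o
    hL lam hlam

end Pool.Agent.H979.FR
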