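import Pool.Agent.H979.FR.Defs
import Pool.Graph.R_seed8.TH994.LR.Inf

set_option autoImplicit false
set_option linter.unusedVariables false

open MeasureTheory ProbabilityTheory Finset
open scoped ENNReal NNReal

/-!
# The frog model with death: statements (each `S_X` is a task), with proofs in the docstrings

Theorem of the project: on every infinite, connected, locally finite, vertex-transitive, amenable
graph of superlinear growth, `t_c(λ) < ∞` for every `λ > 0`.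
-/

namespace Pool.Agent.H979.FR

/-! ### Part 1: geometry of transitive graphs -/

/-- **CNT**. `V` is the union over `n` of the balls `B(o, n)`, which are finite by induction
(`B(o, n+1)` is contained in the union of the neighbour sets of the points of `B(o, n)` and
`B(o, n)`). -/
def S_CNT : Prop := ∀ (V : Type) (G : SimpleGraph V) [G.LocallyFinite], G.Connected → Countable V

/-- **BALL**. Finite: as in CNT. If `V` is infinite, there are vertices at every distance from `o`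
(the balls are finite and the distance to `o` changes by at most one along edges). -/
def S_BALL : Prop := ∀ (V : Type) (G : SimpleGraph V) [G.LocallyFinite], G.Connected →
  (∀ (o : V) (n : ℕ), (ball G o n).Finite) ∧
  (Infinite V → ∀ (o : V) (n : ℕ), (∃ y, G.dist o y = n) ∧ n + 1 ≤ (ball G o n).ncard) ∧
  (Transitive G → ∀ (x y : V) (n : ℕ), (ball G x n).ncard = (ball G y n).ncard)

/-- **REG**. A transitive graph is regular; degree 0 or 1 with connectedness would force at most two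
vertices. -/
def S_REG : Prop := ∀ (V : Type) [Infinite V] (G : SimpleGraph V) [G.LocallyFinite], G.Connected →
  Transitive G → ∃ d : ℕ, 2 ≤ d ∧ ∀ v, G.degree v = d

/-- **MTP** (mass transport inequality from amenability). Put `a = ∑ x, f x z` and
`c = ∑ y, f z y`; both do not depend on `z` (apply an automorphism and reindex the sums) and are
finite (finitely many nonzero finite terms). Let `F` be a finite nonempty set. Then
`|F| a = ∑_{z ∈ F} ∑_x f x z ≤ ∑_{x ∈ F} ∑_z f x z + ∑_{z ∈ F, d(z, outerBd F) ≤ L} a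
≤ |F| c + |outerBd F| |B(L)| a`: if `x ∉ F`, `z ∈ F` and `f x z ≠ 0` then `d(x, z) ≤ L`, and a
geodesic from `z` to `x` meets `outerBd F`, so `z` belongs to one of the balls `B(y, L)`, `y ∈ outerBd F`,
which all have the same number of points. Divide by `|F|` and take `|outerBd F| / |F|` arbitrarily
small. (S_BALL may be assumed.) -/
def S_MTP : Prop := ∀ (V : Type) (G : SimpleGraph V) [G.LocallyFinite], G.Connected →
  Transitive G → Amenable G → ∀ (L : ℕ) (f : V → V → ℝ≥0∞), (∀ x y, f x y ≠ ⊤) →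
  (∀ (φ : G ≃g G) (x y : V), f (φ x) (φ y) = f x y) → (∀ x y, L < G.dist x y → f x y = 0) →
  ∀ z, ∑' x, f x z ≤ ∑' y, f z y

/-- **GEO** (isoperimetric inequality of Coulhon, Saloff-Coste, Lyons, Morris, Schramm; given MTP and
BALL). Let `Geo x y` be the (finite, nonempty) set of the walks from `x` to `y` of length
`dist x y`, `N x y` its cardinality. For `1 ≤ k ≤ r` put
`f_k x z = (1/g(r)) ∑_{y ∈ B(x, r)} #{p ∈ Geo x y : k ≤ length p, p.getVert k = z} / N x y`
(`g(r) = |B(o, r)|`). It is invariant under automorphisms, vanishes if `dist x z > r`, and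
`∑_z f_k x z ≤ 1`. By MTP `∑_x f_k x z ≤ 1` for all `z`. If `x ∈ K` and `y ∉ K`, every
`p ∈ Geo x y` has a first vertex outside `K`; it is in `outerBd G K` and it is `p.getVert k` for some
`1 ≤ k ≤ r`. So for `x ∈ K`: `∑_{k=1}^r ∑_{z ∈ outerBd K} f_k x z ≥ |B(x,r) \ K| / g(r) ≥ 1/2`. Sum over
`x ∈ K`: `|K| / 2 ≤ ∑_k ∑_{z ∈ outerBd K} ∑_x f_k x z ≤ r |outerBd K|`. -/
def S_GEO : Prop := ∀ (V : Type) [Infinite V] (G : SimpleGraph V) [G.LocallyFinite], G.Connected →
  Transitive G → Amenable G → ∀ (o : V) (K : Finset V) (r : ℕ), 2 * K.card ≤ (ball G o r).ncard →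
  K.card ≤ 2 * r * (outerBd G K).ncard

/-- **GROW** (growth gap; given BALL). Suppose `g(3r+1) < 4 g(r)`. For `N` large let
`γ 0, ..., γ (2N)` be the vertices of a geodesic (`dist (γ i) (γ j) = |i - j|`; take a shortest walk
to a vertex at distance `2N`). (a) Let `2r+1 ≤ i ≤ 2N-2r-1` and `y ∈ B(γ i, 2r+1)`. Then
`dist y (γ j) ≤ 2r` for some `j ∈ {i-2r-1, i, i+2r+1}`: otherwise the four balls of radius `r`
around these three points and `y` are pairwise disjoint and contained in `B(γ i, 3r+1)`.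
(b) Let `y ∈ B(γ N, N-4r-2)`. Then `dist y (γ j) ≤ 2r` for some `j`: the vertices
`z_0 = γ N, ..., z_l = y` of a shortest walk have distance to `γ` changing by at most one; if one of
them has distance `> 2r` the first such `z_k` has distance exactly `2r+1`, say to `γ i`, and
`|i - N| = dist (γ i) (γ N) ≤ 2r+1+N-4r-2`, so `2r+1 ≤ i ≤ 2N-2r-1` and (a) gives a
contradiction. So `g(N-4r-2) ≤ (2N+1) g(2r)` for all `N ≥ 4r+2`: linear growth. -/
def S_GROW : Prop := ∀ (V : Type) [Infinite V] (G : SimpleGraph V) [G.LocallyFinite], G.Connected →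
  Transitive G → ∀ (o : V), ¬ LinearGrowth G o → ∀ r : ℕ,
  4 * (ball G o r).ncard ≤ (ball G o (3 * r + 1)).ncard

/-- **ISO** (given GEO, GROW). Since `g 0 = 1`, `g ((3^k-1)/2) ≥ 4^k`. Let `k` be minimal with
`2 |A| ≤ 4^k`; so `k ≥ 1`, `4^(k-1) < 2 |A|`, and GEO with `r = (3^k-1)/2` gives
`|A| ≤ 3^k |outerBd A|`, so `|outerBd A| ≥ |A| / 3^k ≥ (4/3)^k / 8`. Also `2^(r+1) ≤ 2 |A| ≤ 4^k`, so
`r + 1 ≤ 2k` and `(4/3)^k ≥ ((11/10)^2)^k ≥ (11/10)^r`. -/
def S_ISO : Prop := ∀ (V : Type) [Infinite V] (G : SimpleGraph V) [G.LocallyFinite], G.Connected →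
  Transitive G → Amenable G → ∀ (o : V), ¬ LinearGrowth G o → ∀ (r : ℕ) (A : Finset V),
  2 ^ r ≤ A.card → ((11 : ℝ) / 10) ^ r / 8 ≤ ((outerBd G A).ncard : ℝ)

/-- **CELL** (partition into cells; given BALL). Let `ρ = max M 1`, `Z` a maximal set of vertices with
pairwise distances `≥ 2ρ+1` (Zorn). Let `δ v = dist(v, Z)`; by maximality `δ v ≤ 2ρ`. Every `v` with
`δ v > 0` has a neighbour `par v` with `δ (par v) = δ v - 1`. Put `π v = v` if `δ v = 0` and
`π v = π (par v)` otherwise (iterate `par` `2ρ` times, `par v = v` on `Z`). So `π v ∈ Z`,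
`dist v (π v) ≤ 2ρ`; take `L = 4ρ`. If `z ∈ Z` and `dist v z ≤ ρ`, then `π v = z`
(`δ v = dist v z` since other points of `Z` are at distance `≥ ρ+1`, and
`dist v (π v) ≤ δ v ≤ ρ`), so the cell of `z` contains `B(z, ρ)`, which has at least `ρ + 1 ≥ M`
points. Neighbour in the same cell: `par x` if `δ x > 0`, any neighbour of `x` if `x ∈ Z`
(`ρ ≥ 1`). -/
def S_CELL : Prop := ∀ (V : Type) [Infinite V] (G : SimpleGraph V) [G.LocallyFinite], G.Connected →
  ∀ M : ℕ, ∃ (π : V → V) (L : ℕ), (∀ x y, π x = π y → G.dist x y ≤ L) ∧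
    (∀ x, {y | π y = π x}.Finite) ∧ (∀ x, M ≤ {y | π y = π x}.ncard) ∧
    ∀ x, ∃ z, G.Adj x z ∧ π z = π x

/-- **TOUR** (given BALL). The balls of radius `L` have at most `b = ∑_{i ≤ L} d^i` points. Walk from
`x` to the first point of `B(x, L)` and back to `x`, then to the second point and back, etc.: at most
`2 L b` steps; afterwards continue for ever (every vertex has a neighbour since `d > 0`). -/
def S_TOUR : Prop := ∀ (V : Type) (G : SimpleGraph V) [G.LocallyFinite], G.Connected →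
  ∀ d : ℕ, 0 < d → (∀ v, G.degree v = d) → ∀ L : ℕ, ∃ τ0 : ℕ, ∀ x : V, ∃ φ : ℕ → V, φ 0 = x ∧
    (∀ i, G.Adj (φ i) (φ (i + 1))) ∧ ∀ y, G.dist x y ≤ L → ∃ i ≤ τ0, φ i = y

/-! ### Part 2: the kernel of the simple random walk -/

open Classical in
/-- the `n`-step transition probabilities -/
noncomputable def pn {V : Type} (G : SimpleGraph V) [G.LocallyFinite] : ℕ → V → V → ℝ
  | 0, x, y => if x = y then 1 else 0
  | n + 1, x, y => (∑ z ∈ G.neighborFinset x, pn G n z y) / G.degree x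

/-- the average of the `j τ`-step transition probabilities, `j < m` -/
noncomputable def kap {V : Type} (G : SimpleGraph V) [G.LocallyFinite] (m τ : ℕ) (x y : V) : ℝ :=
  (∑ j ∈ range m, pn G (j * τ) x y) / m

/-- **SYM**. Standard: nonnegativity, symmetry, mass one (finite support), Chapman-Kolmogorov. -/
def S_SYM : Prop := ∀ (V : Type) (G : SimpleGraph V) [G.LocallyFinite] (d : ℕ), 0 < d →
  (∀ v, G.degree v = d) → (∀ n x y, 0 ≤ pn G n x y) ∧ (∀ n x y, pn G n x y = pn G n y x) ∧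
  (∀ n x, HasSum (fun y => pn G n x y) 1) ∧
  (∀ n m x y, HasSum (fun z => pn G n x z * pn G m z y) (pn G (n + m) x y)) ∧
  (∀ n x, {y | pn G n x y ≠ 0}.Finite)

/-- **DEC** (uniform decay; given SYM, REG). Write `p = pn G`. By Cauchy-Schwarz
`p (2n) x y = ∑ z, p n x z * p n z y ≤ sqrt (p (2n) x x) * sqrt (p (2n) y y) = a n`, where
`a n = p (2n) o o` (transitivity). `a (n+1) = ∑ y, p 2 o y * p (2n) y o ≤ a n`, so `a n ↓ ℓ ≥ 0`; it
suffices that `ℓ = 0`. Suppose `ℓ > 0`. If `p (2n) y o → ℓ` and `p 2 y z > 0` then `p (2n) z o → ℓ`,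
since `∑_z p 2 y z * (a n - p (2n) z o) = a n - p (2n+2) y o → 0` with nonnegative terms. So
`p (2n) z o → ℓ` for all `z` at even distance from `o`; there are infinitely many of them
(every distance occurs), which contradicts `∑_z p (2n) z o = 1`. -/
def S_DEC : Prop := ∀ (V : Type) [Infinite V] (G : SimpleGraph V) [G.LocallyFinite], G.Connected →
  Transitive G → ∀ ε : ℝ, 0 < ε → ∃ n0 : ℕ, ∀ n, n0 ≤ n → ∀ x y, pn G (2 * n) x y ≤ ε

/-- **MON** (given SYM). With `f = 1_A` and `P f x = (∑_{z ~ x} f z) / d`, the left hand side is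
`∑ x, (P^n f x)^2`, which does not increase with `n`: `(P h x)^2 ≤ P (h^2) x` (Cauchy-Schwarz) and
`∑ x, P (h^2) x = ∑ x, h x^2` for finitely supported `h` (regular graph). -/
def S_MON : Prop := ∀ (V : Type) (G : SimpleGraph V) [G.LocallyFinite] (d : ℕ), 0 < d →
  (∀ v, G.degree v = d) → ∀ (A : Finset V) (n : ℕ), 1 ≤ n →
  ∑ x ∈ A, ∑ y ∈ A, pn G (2 * n) x y ≤ ∑ x ∈ A, ∑ y ∈ A, pn G 2 x y

/-- **BD2** (given SYM). The right hand side is `∑_{x ∈ A} ∑_{y ∉ A} p 2 x y`, at least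
`∑_{y ∈ outerBd A} ∑_{x' ∈ A} p 2 x' y`, and for `y ∈ outerBd A` there is `x ∈ A`, `x ~ y`, and
`x' ∈ A`, `x' ~ x`, so `p 2 x' y ≥ 1 / d ^ 2`. -/
def S_BD2 : Prop := ∀ (V : Type) (G : SimpleGraph V) [G.LocallyFinite] (d : ℕ), 0 < d →
  (∀ v, G.degree v = d) → ∀ (A : Finset V), (∀ x ∈ A, ∃ x' ∈ A, G.Adj x x') →
  ((outerBd G A).ncard : ℝ) / (d : ℝ) ^ 2 ≤ (A.card : ℝ) - ∑ x ∈ A, ∑ y ∈ A, pn G 2 x y

/-- **KAP** (given SYM, MON, BD2). `∑_{A × A} kap = (1/m) ∑_{j<m} ∑_{A×A} p (jτ)`, the term `j = 0` is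
`|A|`, the other ones are at most `∑_{A×A} p 2` by MON (`j τ = 2 n`, `n ≥ 1`). So
`|A| - ∑_{A×A} kap ≥ ((m-1)/m) (|A| - ∑_{A×A} p 2) ≥ (1/2) |outerBd A| / d^2`. -/
def S_KAP : Prop := ∀ (V : Type) (G : SimpleGraph V) [G.LocallyFinite] (d : ℕ), 0 < d →
  (∀ v, G.degree v = d) → ∀ (A : Finset V), (∀ x ∈ A, ∃ x' ∈ A, G.Adj x x') → ∀ (m τ : ℕ), 2 ≤ m →
  Even τ → 2 ≤ τ →
  ((outerBd G A).ncard : ℝ) / (2 * (d : ℝ) ^ 2) ≤
    (A.card : ℝ) - ∑ x ∈ A, ∑ y ∈ A, kap G m τ x y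

/-- **KDEC** (given DEC). DEC with `ε = 1/(4N)`; `τ0 = max 2 (2 n0)`. `kap G m τ x y ≤
(1 + (m-1) / (4N)) / m ≤ 1/(2N)` if `m ≥ 4N` (the term `j = 0` is at most `1`; `jτ = 2n` with
`n ≥ n0` for `j ≥ 1`). -/
def S_KDEC : Prop := ∀ (V : Type) [Infinite V] (G : SimpleGraph V) [G.LocallyFinite], G.Connected →
  Transitive G → ∀ N : ℕ, 1 ≤ N → ∃ τ0 : ℕ, ∀ τ, τ0 ≤ τ → Even τ → ∀ m, 4 * N ≤ m → ∀ x y,
  kap G m τ x y ≤ 1 / (2 * N)

/-! ### Part 3: one particle -/

/-- **EXP**. The sum `S` of the first `T` holding times has mean `T`, so `P(S > t) ≤ T / t ≤ 1/2` by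
Markov's inequality; the holding times are a.s. nonnegative, so the partial sums are `≤ S`.
(For `T = 0`: `t ≥ 0`, the event is everything.) -/
def S_EXP : Prop := ∀ (T : ℕ) (t : ℝ), 2 * (T : ℝ) ≤ t →
  (1 / 2 : ℝ≥0∞) ≤ clockLaw {E | ∀ n ≤ T, ∑ i ∈ range n, E i ≤ t}

/-- **EXPP**. Positive probability for all `t > 0` (each of the first `T` independent holding times is
in `[0, t / (T + 1)]` with positive probability). -/
def S_EXPP : Prop := ∀ (T : ℕ) (t : ℝ), 0 < t →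
  clockLaw {E | ∀ n ≤ T, ∑ i ∈ range n, E i ≤ t} ≠ 0

/-- **SM** (hitting lower bound). Let `X i = path x c i`. For `j < m` let
`F j = {∀ i ≤ τ, X (jτ+i) = φ (X (jτ)) i}`, `B j = {X (jτ) ∈ A} ∩ F j`. Markov property: for an event
`E` that depends only on `c (i, ·)`, `i < n`, one has
`P(E, X n = y, X (n+i) = φ y i ∀ i ≤ τ) = P(E, X n = y) d^(-τ)`, because, given `X n = y`, the last
event is `{c (n+i, φ y i) = φ y (i+1), i < τ}`, which is independent of the `c (i, ·)`, `i < n`, and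
has probability `d^(-τ)`; also `P(X n = y) = pn G n x y`. So `P(B j) = d^(-τ) ∑_{y∈A} pn (jτ) x y` and
`P(B j ∩ B k) ≤ P(B j ∩ F k) = d^(-τ) P(B j)` for `j < k` (`B j` depends on `c (i, ·)`,
`i < (j+1)τ ≤ kτ`). By Bonferroni
`P(⋃ B j) ≥ ∑_j P(B j) - ∑_{j<k} P(B j ∩ B k) ≥ (1 - m d^(-τ)) ∑_j P(B j) ≥ (1/2) d^(-τ) m κ(x, A)
≥ (1/8) κ(x, A)`. -/
def S_SM : Prop := ∀ (V : Type) [MeasurableSpace V] [DiscreteMeasurableSpace V] [Countable V]
  (G : SimpleGraph V) [G.LocallyFinite] (d : ℕ), 0 < d → (∀ v, G.degree v = d) →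
  ∀ (τ m : ℕ) (φ : V → ℕ → V), (∀ x, φ x 0 = x) → (∀ x i, G.Adj (φ x i) (φ x (i + 1))) → 1 ≤ τ →
  (m : ℝ) ≤ (d : ℝ) ^ τ / 2 → (d : ℝ) ^ τ / 4 ≤ m → ∀ (x : V) (A : Finset V),
  ENNReal.ofReal (1 / 8 * ∑ y ∈ A, kap G m τ x y) ≤
    choiceLaw G {c | ∃ j < m, path x c (j * τ) ∈ A ∧
      ∀ i ≤ τ, path x c (j * τ + i) = φ (path x c (j * τ)) i}

/-- **HIT** (given SM, EXP). The event contains the product of the event of EXP with `T = m τ` and the
event of SM for `A` (if `X (jτ) = y0 ∈ A` and the walk follows `φ y0` for `τ` steps, it visits all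
`y` with `π y = π y0 ∈ S`, at times `≤ (j+1)τ ≤ mτ`). -/
def S_HIT : Prop := ∀ (V : Type) [MeasurableSpace V] [DiscreteMeasurableSpace V] [Countable V]
  (G : SimpleGraph V) [G.LocallyFinite] (d : ℕ), 0 < d → (∀ v, G.degree v = d) →
  ∀ (τ m : ℕ) (φ : V → ℕ → V), (∀ x, φ x 0 = x) → (∀ x i, G.Adj (φ x i) (φ x (i + 1))) → 1 ≤ τ →
  (m : ℝ) ≤ (d : ℝ) ^ τ / 2 → (d : ℝ) ^ τ / 4 ≤ m → ∀ (π : V → V),
  (∀ x y, π y = π x → ∃ i ≤ τ, φ x i = y) → ∀ (t : ℝ), 2 * ((m * τ : ℕ) : ℝ) ≤ t →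
  ∀ (x : V) (A : Finset V) (S : Set V), (∀ y ∈ A, π y ∈ S) →
  ENNReal.ofReal (1 / 16 * ∑ y ∈ A, kap G m τ x y) ≤
    partLaw G {ξ | ∃ v ∈ S, ∀ y, π y = v → y ∈ visits t x ξ}

/-! ### Part 4: all particles -/

/-- **MEAS**. `{ξ | y ∈ visits t x ξ}` is a countable union of measurable sets: `c ↦ path x c n` is
measurable by induction (`V` is countable and discrete). -/
def S_MEAS : Prop := ∀ (V : Type) [MeasurableSpace V] [DiscreteMeasurableSpace V] [Countable V]
  (t : ℝ) (x y : V), MeasurableSet {ξ : Part V | y ∈ visits t x ξ}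

/-- **POI**. Independence over `x ∈ s`, and for one vertex: conditionally on the number `n` the
probability that none of the `n` particles is in `H x` is `(1 - h)^n`, `h = partLaw (H x)`, and
`∑_n e^{-λ} λ^n / n! (1-h)^n = e^{-λ h}`. -/
def S_POI : Prop := ∀ (V : Type) [MeasurableSpace V] [DiscreteMeasurableSpace V] [Countable V]
  (G : SimpleGraph V) [G.LocallyFinite] (lam : ℝ≥0) (s : Finset V) (H : V → Set (Part V)),
  (∀ x, MeasurableSet (H x)) →
  law G lam {ω | ∀ x ∈ s, ∀ i < (ω x).1, (ω x).2 i ∉ H x} =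
    ENNReal.ofReal (Real.exp (-∑ x ∈ s, (lam : ℝ) * (partLaw G (H x)).toReal))

open Classical in
/-- the cell with label `u` -/
noncomputable def cell {V : Type} (π : V → V) (u : V) : Finset V :=
  if h : {y | π y = u}.Finite then h.toFinset else ∅

/-- the weight between two cells -/
noncomputable def cw {V : Type} (G : SimpleGraph V) [G.LocallyFinite] (π : V → V) (m τ : ℕ)
    (lam : ℝ) (u v : V) : ℝ :=
  lam / 16 * ∑ x ∈ cell π u, ∑ y ∈ cell π v, kap G m τ x y

open Classical in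
/-- some particle of the cell `u` visits all vertices of the cell `v` -/
noncomputable def Nf {V : Type} (π : V → V) (t : ℝ) (u : Set.range π) (ω : Conf V)
    (v : Set.range π) : Bool :=
  decide (∃ x, π x = u ∧ ∃ i < (ω x).1, ∀ y, π y = v → y ∈ visits t x ((ω x).2 i))

/-- **CLOSE** (given HIT, POI, MEAS). With `H x = {ξ | ∃ v ∈ S, ∀ y, π y = v → y ∈ visits t x ξ}` the
event is `{∀ x ∈ cell u, ∀ i < (ω x).1, (ω x).2 i ∉ H x}`; by POI its probability is
`exp (-∑_{x ∈ cell u} λ partLaw (H x))`, and by HIT with `A` the union of the cells `v ∈ S` (they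
are disjoint, finite), `partLaw (H x) ≥ (1/16) ∑_{v∈S} ∑_{y ∈ cell v} kap x y`. -/
def S_CLOSE : Prop := ∀ (V : Type) [MeasurableSpace V] [DiscreteMeasurableSpace V] [Countable V]
  (G : SimpleGraph V) [G.LocallyFinite] (d : ℕ), 0 < d → (∀ v, G.degree v = d) →
  ∀ (τ m : ℕ) (φ : V → ℕ → V), (∀ x, φ x 0 = x) → (∀ x i, G.Adj (φ x i) (φ x (i + 1))) → 1 ≤ τ →
  (m : ℝ) ≤ (d : ℝ) ^ τ / 2 → (d : ℝ) ^ τ / 4 ≤ m → ∀ (π : V → V),
  (∀ x, {y | π y = π x}.Finite) →
  (∀ x y, π y = π x → ∃ i ≤ τ, φ x i = y) → ∀ (t : ℝ), 2 * ((m * τ : ℕ) : ℝ) ≤ t →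
  ∀ (lam : ℝ≥0) (u : Set.range π) (S : Finset (Set.range π)),
  law G lam {ω | ∀ v ∈ S, Nf π t u ω v = false} ≤
    ENNReal.ofReal (Real.exp (-∑ v ∈ S, cw G π m τ lam u v))

/-- **IND** (given MEAS). `Nf π t u` is a measurable function of the restriction of `ω` to the finite
set `{x | π x = u}`; these sets are disjoint, and the coordinates `ω x` are independent under the
product measure `law`. -/
def S_IND : Prop := ∀ (V : Type) [MeasurableSpace V] [DiscreteMeasurableSpace V] [Countable V]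
  (G : SimpleGraph V) [G.LocallyFinite] (π : V → V), (∀ x, {y | π y = π x}.Finite) →
  ∀ (t : ℝ) (lam : ℝ≥0), (∀ u : Set.range π, Measurable (Nf π t u)) ∧
    iIndepFun (fun u : Set.range π => Nf π t u) (law G lam)

/-- **REACH** (deterministic). If `Nf π t a ω b = true` and all vertices of the cell `a` are visited
from the vertices of the cell `u` (every `x` with `π x = a` satisfies `Visited t ω z x` for some
`z` with `π z = u`), then the same holds for `b`. So every vertex of every cell reachable from `u` is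
visited from a vertex of the cell of `u`; there are infinitely many such vertices (cells are nonempty
and disjoint) and finitely many vertices in the cell of `u`. -/
def S_REACH : Prop := ∀ (V : Type) (π : V → V), (∀ x, {y | π y = π x}.Finite) →
  ∀ (t : ℝ) (ω : Conf V) (u : Set.range π),
  {v | Relation.ReflTransGen (fun a b : Set.range π => Nf π t a ω b = true) u v}.Infinite →
  ∃ x, π x = u ∧ {y | Visited t ω x y}.Infinite

/-- **INS** (insertion of a particle; given EXPP). There is a walk of some length `n` from `o` to `x`, so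
`a = partLaw {ξ | x ∈ visits t o ξ} > 0` (EXPP for the holding times, and the choices follow the walk
with probability `∏ 1/deg > 0`). Let `T (ω, ζ)` be the configuration with one more particle `ζ` at
`o`: `(T (ω, ζ) o).1 = (ω o).1 + 1`, `(T (ω, ζ) o).2 0 = ζ`, `(T (ω, ζ) o).2 (i+1) = (ω o).2 i`, the
other vertices unchanged. The image of `law × partLaw` under `T` is absolutely continuous with
respect to `law`: the image of `Poisson(λ)` under `n ↦ n + 1` has density `n / λ` with respect to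
`Poisson(λ)`, and the image of `partLaw^ℕ × partLaw` is `partLaw^ℕ`. If `law (Survives t o) = 0`,
then `law × partLaw` gives measure `0` to the preimage of `Survives t o`, which contains the product
`{ω : Survives t x} × {ζ : x ∈ visits t o ζ}` (adding a particle only increases the set of visited
vertices, and `x` is visited from `o`). So `law (Survives t x) * a = 0`. -/
def S_INS : Prop := ∀ (V : Type) [MeasurableSpace V] [DiscreteMeasurableSpace V] [Countable V]
  (G : SimpleGraph V) [G.LocallyFinite], G.Connected → ∀ (lam : ℝ≥0), 0 < lam → ∀ (t : ℝ), 0 < t →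
  ∀ (x o : V), law G lam (Survives t x) ≠ 0 → law G lam (Survives t o) ≠ 0

/-- **OUT** (given SYM). `kap x` is a probability mass function; the cells partition `V`. -/
def S_OUT : Prop := ∀ (V : Type) [Countable V] (G : SimpleGraph V) [G.LocallyFinite] (d : ℕ), 0 < d →
  (∀ v, G.degree v = d) → ∀ (m τ : ℕ), 1 ≤ m → ∀ (π : V → V), (∀ x, {y | π y = π x}.Finite) →
  ∀ (lam : ℝ), 0 ≤ lam →
  (∀ u v, 0 ≤ cw G π m τ lam u v) ∧ (∀ u v, cw G π m τ lam u v = cw G π m τ lam v u) ∧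
  (∀ u : Set.range π, ∑' v : Set.range π, ENNReal.ofReal (cw G π m τ lam u v) =
    ENNReal.ofReal (lam / 16 * (cell π u).card)) ∧
  ∀ (D : Finset (Set.range π)) (A : Finset V), (∀ x, x ∈ A ↔ ∃ u ∈ D, π x = u) →
    ∑ u ∈ D, ∑' v : Set.range π, (open Classical in if v ∈ D then 0 else
      ENNReal.ofReal (cw G π m τ lam u v)) =
    ENNReal.ofReal (lam / 16 * ((A.card : ℝ) - ∑ x ∈ A, ∑ y ∈ A, kap G m τ x y))

/-! ### Part 5: long range percolation engine -/

open Pool.Agent.TH994.LR in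
open Classical in
/-- **CL** (comparison with undirected independent percolation). `N x` is a random subset of `V`
(`y ∈ N x` iff `N x ω y = true`), independent for different `x`. For finsets `R`, `L ⊆ R` let
`f(R, L) = P(∃ U, L ⊆ U ⊆ R, U ∩ B = ∅, ∀ x ∈ U, ∀ y ∈ R \ U, y ∉ N x)` and
`g(R, L) = ∑_c pr c 1(∃ U, L ⊆ U ⊆ R, U ∩ B = ∅, ∀ x ∈ U, ∀ y ∈ R \ U, c s(x,y) = false)`.
Claim `f(R, L) ≤ g(R, L)`, by induction on `|R|`; the statement is `R = univ`, `L = {o}`.
If `L = ∅` both are `1` (`U = ∅`). Let `x ∈ L`. If `x ∈ B` both are `0`. Otherwise, with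
`R' = R \ {x}`, `U ↔ U \ {x}` shows that the event of `f(R, L)` holds iff the event of
`f(R', (L ∪ (N x ∩ R)) \ {x})` holds; the latter event with a fixed set `n` in place of `N x` does
not depend on `N x`, so `f(R, L) = ∑_n P(N x = n) f(R', (L ∪ (n ∩ R)) \ {x})
≤ ∑_n P(N x = n) g(R', (L ∪ (n ∩ R)) \ {x})`. For a configuration `c` let `U*(c)` be the union of all
`U' ⊆ R'` with `U' ∩ B = ∅` that are closed in `R'` (no open pair between `U'` and `R' \ U'`); it is
closed, so the event of `g(R', L')` is `L' ⊆ U*(c)`. With `T(c) = R' \ U*(c)`: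
`∑_n P(N x = n) 1((L ∪ (n ∩ R)) \ {x} ⊆ U*(c)) = 1(L \ {x} ⊆ U*(c)) P(N x ∩ T(c) = ∅)
≤ 1(L \ {x} ⊆ U*(c)) ∏_{y ∈ T(c)} exp (-w s(x,y))`, and the sum over `c` of this with weights
`pr c` is `g(R, L)`, because `U*(c)`, `T(c)` do not depend on `c s(x, ·)` (decompose according to the
value of `T(c)`), and the event of `g(R, L)` is
`{L \ {x} ⊆ U*(c), c s(x,y) = false for all y ∈ T(c)}`. -/
def S_CL : Prop := ∀ (V : Type) [Fintype V] [DecidableEq V] (Ω : Type) [MeasurableSpace Ω]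
  (P : Measure Ω) [IsProbabilityMeasure P] (N : V → Ω → V → Bool), (∀ x, Measurable (N x)) →
  iIndepFun N P → ∀ (w : Sym2 V → ℝ), (∀ e, 0 ≤ w e) →
  (∀ (x : V) (S : Finset V), x ∉ S → P {ω | ∀ y ∈ S, N x ω y = false} ≤
    ENNReal.ofReal (Real.exp (-∑ y ∈ S, w s(x, y)))) →
  ∀ (o : V) (B : Finset V),
  P {ω | ∃ U : Finset V, o ∈ U ∧ Disjoint U B ∧ ∀ x ∈ U, ∀ y ∉ U, N x ω y = false} ≤
    ENNReal.ofReal (∑ c, pr (fun e => Real.exp (-1 * w e)) c *
      (if ∃ U, o ∈ U ∧ Disjoint U B ∧ Clo c U then (1 : ℝ) else 0))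

open Classical in
/-- **ENG** (given CL; use `finite_main`, `exists_big`, `bd_ge` of the library files
`Pool/Graph/R_seed8/TH994/LR/Fin.lean`, `Inf.lean`, exactly as in `cluster_sub` and `cluster_inf`
there). Let `wt = Sym2.lift w` (in `ℝ≥0`), `S1 = ∑ 1/ψ`. Apply `finite_main` with `lam = 1`,
`τ = 4` (`2 τ S1 ≤ 1/2` as `S1 ≤ 1/16`), `κ r = 2 (1 + log (1 + 2 ψ r)) / ψ r`
(`ψ 0 ≥ 16` since the term `r = 0` of the sum is at most `1/16`, so `min τ (ψ 0 / 2) = 4` and
`ψ r / (2 * 4) ≤ 2 ψ r`), `S2 = 1/8`, `η = 1/4` (`1/4 ≤ 1 * (1 - 2 τ S1) - 2 S2`); `C = 1/4`, since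
`exp (-ψ/4) ≤ 4/ψ` and `∑ 4/ψ ≤ 1/4`. For a finite `Λ ∋ o`, `Λ' ⊇ Λ` of `exists_big`, `B = Λ' \ Λ` and
the sets `N u ∩ Λ'`, `u ∈ Λ'` (`y ↦ N u ω y` restricted to `Λ'`) the event
`{the set reached from o is contained in Λ}` is contained in the event of CL (`U` = the reached set),
so its probability is at most `1/4`. The finite reached sets are covered by a countable increasing
union of such events, so the reached set is infinite with probability `≥ 3/4`. -/
def S_ENG : Prop := ∀ (Γ : Type) [Countable Γ] (w : Γ → Γ → ℝ), (∀ u v, 0 ≤ w u v) →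
  (∀ u v, w u v = w v u) → (∀ u, ∑' v, ENNReal.ofReal (w u v) ≠ ⊤) →
  ∀ ψ : ℕ → ℝ, (∀ r, 0 < ψ r) → (∀ r, ψ 0 ≤ ψ r) →
  (∀ k, ∑ r ∈ range k, (1 + Real.log (1 + 2 * ψ r)) / ψ r ≤ 1 / 16) →
  (∀ (r : ℕ) (D : Finset Γ), D.Nonempty → 2 ^ r ≤ D.card →
    ENNReal.ofReal (2 * ψ r) ≤ ∑ u ∈ D, ∑' v, if v ∈ D then 0 else ENNReal.ofReal (w u v)) →
  ∀ (Ω : Type) [MeasurableSpace Ω] (P : Measure Ω) [IsProbabilityMeasure P] (N : Γ → Ω → Γ → Bool),
  (∀ u, Measurable (N u)) → iIndepFun N P →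
  (∀ (u : Γ) (S : Finset Γ), u ∉ S → P {ω | ∀ v ∈ S, N u ω v = false} ≤
    ENNReal.ofReal (Real.exp (-∑ v ∈ S, w u v))) →
  ∀ o : Γ, P {ω | {v | Relation.ReflTransGen (fun a b => N a ω b = true) o v}.Infinite} ≠ 0

/-- **PAR** (choice of the parameters). With `a = lam * M / 64` choose `M` so large that
`∑_r (1 + log (1 + 2 a 2^r)) / (a 2^r) ≤ 1/32` (the sum is at most
`∑_r (1 + log (1 + 2 a) + r log 2) / (a 2^r) ≤ (2 + 2 log (1 + 2a) + 2) / a → 0`). Then choose `r1` so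
large that `∑_{r > r1} (1 + log (1 + c (11/10)^r)) / ((c/2) (11/10)^r) ≤ 1/32` (summable: the
logarithm grows linearly) and `(c/2) (11/10)^r ≥ a` for `r > r1`; then `r2`. -/
def S_PAR : Prop := ∀ lam c : ℝ, 0 < lam → 0 < c → ∃ (M r1 r2 : ℕ) (ψ : ℕ → ℝ), 1 ≤ M ∧
  (∀ r, 0 < ψ r) ∧ (∀ r, ψ 0 ≤ ψ r) ∧
  (∀ k, ∑ r ∈ range k, (1 + Real.log (1 + 2 * ψ r)) / ψ r ≤ 1 / 16) ∧
  (∀ r ≤ r1, 2 * ψ r = lam * M / 32 * 2 ^ r) ∧ (∀ r, r1 < r → 2 * ψ r = c * (11 / 10) ^ r) ∧
  lam * M / 32 * 2 ^ r1 ≤ c * (11 / 10) ^ r2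

end Pool.Agent.H979.FR
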